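import Pool.Agent.H28.IQ.MainD

/-!
# MP_45b403_al: the isomorphism problem for 2-generator finitely presented metabelian groups

`Pres = ℕ × List Word`: a finite presentation (`n`, list of relators), a word being a list of letters
`(i, true)` (the generator `i`) or `(i, false)` (its inverse); `Grp P` is the group with the generators
`0, …, n - 1` and these relators (letters with index `≥ n` are deleted from the relators). Algorithms are
Mathlib's partial recursive functions. A metabelian group is polycyclic iff all its subgroups are finitely
generated.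
-/

set_option autoImplicit false

namespace Pool.Agent.Results.MP_45b403_al.TwoGenNonPolycyclic

open Pool.Agent.H28.IP

/-- The abelianisation of `G` is torsion-free, and `G` has a subgroup which is not finitely generated (for
metabelian `G`: `G` is not polycyclic). -/
def TFNP (G : Type) [Group G] : Prop :=
  (∀ (g : G) (n : ℕ), n ≠ 0 → g ^ n ∈ commutator G → g ∈ commutator G) ∧
    ∃ H : Subgroup G, ¬ H.FG

/-- There is a partial recursive function `D` on pairs of finite presentations such that, whenever `P₁`, `P₂`
present metabelian groups which can be generated by two elements, at least one of which is not polycyclic and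
has torsion-free abelianisation, `D` halts on `(P₁, P₂)` and its value tells whether the two groups are
isomorphic. -/
theorem result : ∃ D : Pres × Pres →. Bool, Partrec D ∧ ∀ P₁ P₂ : Pres,
    (∀ x ∈ commutator (Grp P₁), ∀ y ∈ commutator (Grp P₁), x * y = y * x) →
    (∃ a b : Grp P₁, Subgroup.closure {a, b} = ⊤) →
    (∀ x ∈ commutator (Grp P₂), ∀ y ∈ commutator (Grp P₂), x * y = y * x) →
    (∃ a b : Grp P₂, Subgroup.closure {a, b} = ⊤) →
    (TFNP (Grp P₁) ∨ TFNP (Grp P₂)) →
      ∃ b ∈ D (P₁, P₂), (b = true ↔ Nonempty (Grp P₁ ≃* Grp P₂)) := by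
  obtain ⟨D, hD, h⟩ := main_thm2
  exact ⟨D, hD, fun P₁ P₂ h1 h2 h3 h4 h5 => h P₁ P₂ ⟨h1, h2⟩ ⟨h3, h4⟩ h5⟩

end Pool.Agent.Results.MP_45b403_al.TwoGenNonPolycyclic
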